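import Mathlib

/-!
# The Lindelöf number of dense subspaces of monotonically normal spaces
-/

set_option autoImplicit false

open Set Topology
open Cardinal hiding univ

universe u

namespace Pool.Agent.Results.MP_d81239_gt.DenseSubspaceLindelofNumber

/-- Every open cover of `Z` has a subcover of cardinality at most `κ`. -/
def CoverLE (Z : Type u) [TopologicalSpace Z] (κ : Cardinal.{u}) : Prop :=
  ∀ 𝒰 : Set (Set Z), (∀ U ∈ 𝒰, IsOpen U) → ⋃₀ 𝒰 = univ → ∃ 𝒱 ⊆ 𝒰, #𝒱 ≤ κ ∧ ⋃₀ 𝒱 = univ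

/-- The Lindelöf number: the least infinite cardinal `κ` such that every open cover has a subcover
of cardinality at most `κ`. -/
noncomputable def lindelofNumber (Z : Type u) [TopologicalSpace Z] : Cardinal.{u} :=
  sInf {κ : Cardinal.{u} | ℵ₀ ≤ κ ∧ CoverLE Z κ}

/-- Monotonically normal spaces. -/
def MonotonicallyNormal (X : Type u) [TopologicalSpace X] : Prop :=
  T1Space X ∧ ∃ H : X → Set X → Set X,
    (∀ x U, IsOpen U → x ∈ U → IsOpen (H x U) ∧ x ∈ H x U ∧ H x U ⊆ U) ∧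
    ∀ x U y V, IsOpen U → x ∈ U → IsOpen V → y ∈ V → (H x U ∩ H y V).Nonempty → x ∈ V ∨ y ∈ U

theorem lindelofNumber_mem (Z : Type u) [TopologicalSpace Z] :
    ℵ₀ ≤ lindelofNumber Z ∧ CoverLE Z (lindelofNumber Z) := by
  refine csInf_mem (s := {κ : Cardinal.{u} | ℵ₀ ≤ κ ∧ CoverLE Z κ})
    ⟨max ℵ₀ #(Set Z), le_max_left _ _, fun 𝒰 _ hc => ⟨𝒰, Subset.rfl, ?_, hc⟩⟩
  exact (mk_set_le _).trans (le_max_right _ _)

/-- Pigeonhole principle for sets of cardinality greater than `κ`. -/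
theorem pigeon {A : Type u} {X : Type u} {κ : Cardinal.{u}} (hκ : ℵ₀ ≤ κ) (C : Set X) (hC : #C ≤ κ)
    (S : Set A) (hS : ¬ #S ≤ κ) (f : A → X) (hf : ∀ a ∈ S, f a ∈ C) :
    ∃ c, ¬ #({a ∈ S | f a = c} : Set A) ≤ κ := by
  by_contra hcon
  push Not at hcon
  apply hS
  have h1 : S ⊆ ⋃ c : C, {a ∈ S | f a = c} := by
    intro a ha
    exact mem_iUnion.2 ⟨⟨f a, hf a ha⟩, ha, rfl⟩
  refine (mk_le_mk_of_subset h1).trans ((mk_iUnion_le _).trans ?_)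
  refine (mul_le_mul' hC (ciSup_le' fun c : C => hcon c.1)).trans ?_
  exact mul_le_of_le hκ le_rfl le_rfl

/-- In a monotonically normal space, an open cover of the closure of a set of cardinality at most
`κ` has a subfamily of cardinality at most `κ` covering it. -/
theorem cover_closure_aux {X : Type u} [TopologicalSpace X] (hX : MonotonicallyNormal X)
    {κ : Cardinal.{u}} (hκ : ℵ₀ ≤ κ) (C : Set X) (hC : #C ≤ κ) {I : Type u} [LinearOrder I]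
    [WellFoundedLT I] (O : I → Set X) (hop : ∀ i, IsOpen (O i)) (hc : closure C ⊆ ⋃ i, O i) :
    ∃ J : Set I, #J ≤ κ ∧ closure C ⊆ ⋃ i ∈ J, O i := by
  classical
  obtain ⟨hT1, H, hH1, hH2⟩ := hX
  have wf : WellFounded ((· < ·) : I → I → Prop) := wellFounded_lt
  -- the first member containing a given point
  have h1 : ∀ x ∈ closure C, ∃ i : I, x ∈ O i ∧ ∀ j : I, x ∈ O j → i ≤ j := by
    intro x hx
    have hne : {i : I | x ∈ O i}.Nonempty := mem_iUnion.1 (hc hx)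
    exact ⟨WellFounded.min wf _ hne, WellFounded.min_mem wf _ hne, fun j hj =>
      WellFounded.min_le wf (show j ∈ {i : I | x ∈ O i} from hj)⟩
  by_contra hcon
  push Not at hcon
  have hCne : (closure C).Nonempty := by
    by_contra hemp
    rw [not_nonempty_iff_eq_empty] at hemp
    exact hcon ∅ (by simp) (by rw [hemp]; exact empty_subset _)
  obtain ⟨x0, hx0⟩ := hCne
  obtain ⟨i0, -, -⟩ := h1 x0 hx0
  have : Nonempty I := ⟨i0⟩
  have : Nonempty X := ⟨x0⟩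
  choose! m hm1 hm2 using h1
  let J : Set I := m '' closure C
  have hJ : ¬ #J ≤ κ := by
    intro h
    refine hcon J h ?_
    intro x hx
    exact mem_iUnion₂.2 ⟨m x, ⟨x, hx, rfl⟩, hm1 x hx⟩
  have h2 : ∀ i ∈ J, ∃ x ∈ closure C, m x = i := fun i hi => hi
  choose! x hx1 hx2 using h2
  have hxm : ∀ i ∈ J, x i ∈ O i := by
    intro i hi
    have := hm1 (x i) (hx1 i hi)
    rwa [hx2 i hi] at this
  have hxn : ∀ i ∈ J, ∀ j ∈ J, i < j → x j ∉ O i := by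
    intro i _ j hj hlt hxV
    have h3 := hm2 (x j) (hx1 j hj) i hxV
    rw [hx2 j hj] at h3
    exact absurd hlt (not_lt.2 h3)
  -- first uniformization
  let P : I → Set X := fun i => H (x i) (O i)
  have hP : ∀ i ∈ J, IsOpen (P i) ∧ x i ∈ P i ∧ P i ⊆ O i := fun i hi =>
    hH1 (x i) (O i) (hop i) (hxm i hi)
  have h3 : ∀ i ∈ J, ∃ c ∈ C, c ∈ H (x i) (P i) := by
    intro i hi
    obtain ⟨h4, h5, -⟩ := hH1 (x i) (P i) (hP i hi).1 (hP i hi).2.1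
    obtain ⟨c, hc1, hc2⟩ := mem_closure_iff.1 (hx1 i hi) _ h4 h5
    exact ⟨c, hc2, hc1⟩
  choose! c hc1 hc2 using h3
  obtain ⟨c0, hA⟩ := pigeon hκ C hC J hJ c hc1
  set A : Set I := {i ∈ J | c i = c0} with hAdef
  have hAJ : ∀ i ∈ A, i ∈ J := fun i h => h.1
  have hchain : ∀ i ∈ A, ∀ j ∈ A, i < j → x i ∈ P j := by
    intro i hi j hj hlt
    have h4 : (H (x i) (P i) ∩ H (x j) (P j)).Nonempty := by
      refine ⟨c0, ?_, ?_⟩
      · rw [← hi.2]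
        exact hc2 i hi.1
      · rw [← hj.2]
        exact hc2 j hj.1
    rcases hH2 _ _ _ _ (hP i hi.1).1 (hP i hi.1).2.1 (hP j hj.1).1 (hP j hj.1).2.1 h4 with h5 | h5
    · exact h5
    · exact absurd ((hP i hi.1).2.2 h5) (hxn i hi.1 j hj.1 hlt)
  -- the set of elements of `A` having a successor in `A`
  let A' : Set I := {i ∈ A | ∃ j ∈ A, i < j}
  have hA' : ¬ #A' ≤ κ := by
    intro h
    apply hA
    have h4 : A ⊆ A' ∪ {i ∈ A | ∀ j ∈ A, j ≤ i} := by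
      intro i hi
      by_cases h5 : ∃ j ∈ A, i < j
      · exact Or.inl ⟨hi, h5⟩
      · push Not at h5
        exact Or.inr ⟨hi, h5⟩
    have h5 : #({i ∈ A | ∀ j ∈ A, j ≤ i} : Set I) ≤ 1 := by
      rw [mk_le_one_iff_set_subsingleton]
      rintro i ⟨h6, h7⟩ j ⟨h8, h9⟩
      exact le_antisymm (h9 i h6) (h7 j h8)
    refine (mk_le_mk_of_subset h4).trans ((mk_union_le _ _).trans ?_)
    exact add_le_of_le hκ h (h5.trans (one_le_aleph0.trans hκ))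
  have h4 : ∀ i ∈ A', ∃ j ∈ A, i < j ∧ ∀ k ∈ A, i < k → j ≤ k := by
    rintro i ⟨hi, j0, hj0, hlt⟩
    have hne : {j | j ∈ A ∧ i < j}.Nonempty := ⟨j0, hj0, hlt⟩
    obtain ⟨h5, h6⟩ := WellFounded.min_mem wf _ hne
    exact ⟨WellFounded.min wf _ hne, h5, h6, fun k hk hlt' =>
      WellFounded.min_le wf (show k ∈ {j | j ∈ A ∧ i < j} from ⟨hk, hlt'⟩)⟩
  choose! s hs1 hs2 hs3 using h4
  let W : I → Set X := fun i => O (s i) \ {x i}
  have hWo : ∀ i ∈ A', IsOpen (W i) := fun i _ => (hop (s i)).sdiff isClosed_singleton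
  have hWm : ∀ i ∈ A', x (s i) ∈ W i := by
    intro i hi
    refine ⟨hxm _ (hAJ _ (hs1 i hi)), ?_⟩
    intro h
    have h5 : x (s i) = x i := h
    apply hxn i (hAJ i hi.1) (s i) (hAJ _ (hs1 i hi)) (hs2 i hi)
    rw [h5]
    exact hxm i (hAJ i hi.1)
  let Q : I → Set X := fun i => H (x (s i)) (W i)
  have hQ : ∀ i ∈ A', IsOpen (Q i) ∧ x (s i) ∈ Q i ∧ Q i ⊆ W i := fun i hi =>
    hH1 _ _ (hWo i hi) (hWm i hi)
  have h5 : ∀ i ∈ A', ∃ d ∈ C, d ∈ H (x (s i)) (Q i) := by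
    intro i hi
    obtain ⟨h6, h7, -⟩ := hH1 (x (s i)) (Q i) (hQ i hi).1 (hQ i hi).2.1
    obtain ⟨d, hd1, hd2⟩ := mem_closure_iff.1 (hx1 _ (hAJ _ (hs1 i hi))) _ h6 h7
    exact ⟨d, hd2, hd1⟩
  choose! d hd1 hd2 using h5
  obtain ⟨d0, hB⟩ := pigeon hκ C hC A' hA' d hd1
  set B : Set I := {i ∈ A' | d i = d0} with hBdef
  have hBinf : B.Infinite := by
    intro h
    exact hB ((lt_aleph0_iff_set_finite.2 h).le.trans hκ)
  obtain ⟨i, hi, himin⟩ : ∃ i ∈ B, ∀ j ∈ B, i ≤ j :=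
    ⟨WellFounded.min wf B hBinf.nonempty, WellFounded.min_mem wf _ _, fun j hj =>
      WellFounded.min_le wf hj⟩
  have hB1 : (B \ {i}).Infinite := hBinf.sdiff (finite_singleton i)
  obtain ⟨k, hk, hkmin⟩ : ∃ k ∈ B \ {i}, ∀ j ∈ B \ {i}, k ≤ j :=
    ⟨WellFounded.min wf _ hB1.nonempty, WellFounded.min_mem wf _ _, fun j hj =>
      WellFounded.min_le wf hj⟩
  obtain ⟨j, hj⟩ := (hB1.sdiff (finite_singleton k)).nonempty
  have hik : i < k := lt_of_le_of_ne (himin k hk.1) fun h => hk.2 h.symm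
  have hkj : k < j := lt_of_le_of_ne (hkmin j hj.1) fun h => hj.2 h.symm
  have hi' : i ∈ A' := hi.1
  have hj' : j ∈ A' := hj.1.1.1
  have hsij : s i < j := (hs3 i hi' k hk.1.1.1 hik).trans_lt hkj
  have h6 : x (s i) ∈ Q j := by
    have h7 : (H (x (s i)) (Q i) ∩ H (x (s j)) (Q j)).Nonempty := by
      refine ⟨d0, ?_, ?_⟩
      · rw [← hi.2]
        exact hd2 i hi'
      · rw [← hj.1.1.2]
        exact hd2 j hj'
    rcases hH2 _ _ _ _ (hQ i hi').1 (hQ i hi').2.1 (hQ j hj').1 (hQ j hj').2.1 h7 with h8 | h8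
    · exact h8
    · exact absurd ((hQ i hi').2.2 h8).1 (hxn (s i) (hAJ _ (hs1 i hi')) (s j)
        (hAJ _ (hs1 j hj')) (hsij.trans (hs2 j hj')))
  have h7 : x (s i) ∈ P j := hchain (s i) (hs1 i hi') j hj'.1 hsij
  rcases hH2 _ _ _ _ (hWo j hj') (hWm j hj') (hop j) (hxm j (hAJ j hj'.1))
    ⟨x (s i), h6, h7⟩ with h8 | h8
  · exact hxn j (hAJ j hj'.1) (s j) (hAJ _ (hs1 j hj')) (hs2 j hj') h8
  · exact h8.2 rfl

theorem cover_closure {X : Type u} [TopologicalSpace X] (hX : MonotonicallyNormal X)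
    {κ : Cardinal.{u}} (hκ : ℵ₀ ≤ κ) (C : Set X) (hC : #C ≤ κ) (𝒰 : Set (Set X))
    (hU : ∀ U ∈ 𝒰, IsOpen U) (hc : closure C ⊆ ⋃₀ 𝒰) :
    ∃ 𝒱 ⊆ 𝒰, #𝒱 ≤ κ ∧ closure C ⊆ ⋃₀ 𝒱 := by
  obtain ⟨r, hr⟩ := exists_wellFoundedLT 𝒰
  obtain ⟨J, h1, h2⟩ := @cover_closure_aux X _ hX κ hκ C hC 𝒰 r hr (fun U => U.1)
    (fun U => hU U.1 U.2) (by rwa [← sUnion_eq_iUnion])
  refine ⟨Subtype.val '' J, ?_, mk_image_le.trans h1, ?_⟩
  · rintro _ ⟨U, -, rfl⟩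
    exact U.2
  · intro x hx
    obtain ⟨U, hUJ, hxU⟩ := mem_iUnion₂.1 (h2 hx)
    exact ⟨U.1, ⟨U, hUJ, rfl⟩, hxU⟩

/-- If `X` is monotonically normal and `Y` is dense in `X`, then `l(X) ≤ l(Y)`. -/
theorem result (X : Type u) [TopologicalSpace X] (hX : MonotonicallyNormal X) (Y : Set X)
    (hY : Dense Y) : lindelofNumber X ≤ lindelofNumber Y := by
  classical
  obtain ⟨hκ, hYc⟩ := lindelofNumber_mem Y
  refine csInf_le' ⟨hκ, ?_⟩
  intro 𝒰 hU hc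
  obtain ⟨hT1, H, hH1, hH2⟩ := id hX
  have h1 : ∀ y : X, ∃ U ∈ 𝒰, y ∈ U := by
    intro y
    have : y ∈ ⋃₀ 𝒰 := by
      rw [hc]
      exact mem_univ y
    exact this
  choose U hU1 hU2 using h1
  have hHy : ∀ y, IsOpen (H y (U y)) ∧ y ∈ H y (U y) ∧ H y (U y) ⊆ U y := fun y =>
    hH1 y (U y) (hU _ (hU1 y)) (hU2 y)
  obtain ⟨𝒲, h2, h3, h4⟩ := hYc (range fun y : Y => (Subtype.val ⁻¹' H y.1 (U y.1) : Set Y)) (by
    rintro _ ⟨y, rfl⟩
    exact (hHy y.1).1.preimage continuous_subtype_val) (by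
    refine eq_univ_of_forall fun y => ?_
    exact ⟨_, ⟨y, rfl⟩, (hHy y.1).2.1⟩)
  have h5 : ∀ w : 𝒲, ∃ y : Y, (Subtype.val ⁻¹' H y.1 (U y.1) : Set Y) = w.1 := fun w => h2 w.2
  choose g hg using h5
  let C : Set X := range fun w : 𝒲 => (g w).1
  have hC : #C ≤ lindelofNumber Y := mk_range_le.trans h3
  have hcov : ∀ y ∈ Y, ∃ z ∈ C, y ∈ H z (U z) := by
    intro y hy
    have : (⟨y, hy⟩ : Y) ∈ ⋃₀ 𝒲 := by
      rw [h4]
      exact mem_univ _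
    obtain ⟨w, hw, hyw⟩ := this
    refine ⟨(g ⟨w, hw⟩).1, ⟨⟨w, hw⟩, rfl⟩, ?_⟩
    have h6 := hg ⟨w, hw⟩
    dsimp only at h6
    rw [← h6] at hyw
    exact hyw
  obtain ⟨𝒱, h6, h7, h8⟩ := cover_closure hX hκ C hC 𝒰 hU (by
    rw [hc]
    exact subset_univ _)
  refine ⟨𝒱 ∪ U '' C, ?_, ?_, ?_⟩
  · refine union_subset h6 ?_
    rintro _ ⟨y, -, rfl⟩
    exact hU1 y
  · exact (mk_union_le _ _).trans (add_le_of_le hκ h7 (mk_image_le.trans hC))
  · refine eq_univ_of_forall fun x => ?_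
    by_cases hxC : x ∈ closure C
    · obtain ⟨V, hV, hxV⟩ := h8 hxC
      exact ⟨V, Or.inl hV, hxV⟩
    · have hW : IsOpen (closure C)ᶜ := isClosed_closure.isOpen_compl
      obtain ⟨h9, h10, -⟩ := hH1 x (closure C)ᶜ hW hxC
      obtain ⟨y, hy1, hy2⟩ := hY.inter_open_nonempty _ h9 ⟨x, h10⟩
      obtain ⟨z, hz, hyz⟩ := hcov y hy2
      rcases hH2 _ _ _ _ hW hxC (hU _ (hU1 z)) (hU2 z) ⟨y, hy1, hyz⟩ with h11 | h11
      · exact ⟨U z, Or.inr ⟨z, hz, rfl⟩, h11⟩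
      · exact absurd (subset_closure hz) h11

end Pool.Agent.Results.MP_d81239_gt.DenseSubspaceLindelofNumber
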